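import Mathlib

set_option autoImplicit false

namespace Pool.Agent.Results.MP_691546_co.Counterexample
open Finset

/-- `D` is dominating: every vertex `v ∉ D` lies in an edge `e` with `e \ {v} ⊆ D`. -/
def Dominating {n : ℕ} (E : Finset (Finset (Fin n))) (D : Finset (Fin n)) : Prop :=
  ∀ v, v ∉ D → ∃ e ∈ E, v ∈ e ∧ e.erase v ⊆ D

/-- The dominated number: the largest size of a set whose complement is dominating. -/
noncomputable def dominatedNumber {n : ℕ} (E : Finset (Finset (Fin n))) : ℕ :=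
  sSup {k : ℕ | ∃ S : Finset (Fin n), Dominating E Sᶜ ∧ S.card = k}

/-- The number of `t`-sets all of whose `r`-subsets are edges. -/
noncomputable def cliqueCount {n : ℕ} (r t : ℕ) (E : Finset (Finset (Fin n))) : ℕ :=
  Set.ncard {T : Finset (Fin n) | T.card = t ∧ ∀ e ⊆ T, e.card = r → e ∈ E}

/-- 7-sets of `Fin 11` whose complement meets all three residue classes mod 3. -/
def E0 : Finset (Finset (Fin 11)) :=
  (powersetCard 7 univ).filter (fun e => ∀ i : Fin 3, ∃ v, v ∉ e ∧ v.val % 3 = i.val)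

def T0 : Finset (Finset (Fin 11)) :=
  (powersetCard 8 univ).filter (fun e => ∀ i : Fin 3, ∃ v, v ∉ e ∧ v.val % 3 = i.val)

theorem T0_card : T0.card = 48 := by decide +kernel

theorem cover : ∀ v : Fin 11, ∃ e ∈ E0, v ∈ e := by
  intro v
  have h1 : ({4, 5, 6, 7, 8, 9, 10} : Finset (Fin 11)) ∈ E0 :=
    mem_filter.2 ⟨mem_powersetCard.2 ⟨subset_univ _, by decide⟩, by decide⟩
  have h2 : ({0, 1, 2, 3, 8, 9, 10} : Finset (Fin 11)) ∈ E0 :=
    mem_filter.2 ⟨mem_powersetCard.2 ⟨subset_univ _, by decide⟩, by decide⟩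
  by_cases h : v.val ≤ 3
  · exact ⟨_, h2, by revert v; decide⟩
  · exact ⟨_, h1, by revert v; decide⟩

theorem five (S : Finset (Fin 11)) (h5 : S.card = 5)
    (h : ∀ v ∈ S, ∀ i : Fin 3, ∃ u ∈ S, u ≠ v ∧ u.val % 3 = i.val) : False := by
  obtain ⟨v0, hv0⟩ : S.Nonempty := card_pos.1 (by omega)
  have h2 : ∀ i : Fin 3, 2 ≤ (S.filter (fun u => u.val % 3 = i.val)).card := by
    intro i
    obtain ⟨a, ha, -, hai⟩ := h v0 hv0 i
    obtain ⟨b, hb, hba, hbi⟩ := h a ha i
    exact one_lt_card.2 ⟨a, mem_filter.2 ⟨ha, hai⟩, b, mem_filter.2 ⟨hb, hbi⟩, hba.symm⟩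
  have h3 := card_eq_sum_card_fiberwise (f := fun u : Fin 11 => u.val % 3) (s := S)
    (t := range 3) (fun u _ => by simp only [coe_range, Set.mem_Iio]; omega)
  simp only [sum_range_succ, range_zero, sum_empty] at h3
  have a0 := h2 0
  have a1 := h2 1
  have a2 := h2 2
  simp only [Fin.val_zero, Fin.val_one, Fin.val_two] at a0 a1 a2
  omega

theorem result : ∃ (r s t n : ℕ) (E : Finset (Finset (Fin n))),
    3 ≤ r ∧ 1 ≤ s ∧ r + 1 ≤ t ∧ (∀ e ∈ E, e.card = r) ∧ (∀ v : Fin n, ∃ e ∈ E, v ∈ e) ∧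
    dominatedNumber E ≤ s ∧ (s + r - 1).choose t < cliqueCount r t E := by
  refine ⟨7, 4, 8, 11, E0, by norm_num, by norm_num, by norm_num,
    fun e he => (mem_powersetCard.1 (mem_filter.1 he).1).2, cover, ?_, ?_⟩
  · apply csSup_le'
    rintro k ⟨S, hS, rfl⟩
    by_contra hlt
    have hlt : 5 ≤ S.card := by omega
    have hc : Sᶜ.card = 11 - S.card := by rw [card_compl]; simp
    have key : ∀ v ∈ S, S.card = 5 ∧ ∀ i : Fin 3, ∃ u ∈ S, u ≠ v ∧ u.val % 3 = i.val := by
      intro v hv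
      obtain ⟨e, he, hve, hsub⟩ := hS v (by simpa using hv)
      obtain ⟨he1, he2⟩ := mem_filter.1 he
      have h7 := (mem_powersetCard.1 he1).2
      have h6 : (e.erase v).card = 6 := by rw [card_erase_of_mem hve, h7]
      have hle := card_le_card hsub
      have heq : e.erase v = Sᶜ := eq_of_subset_of_card_le hsub (by omega)
      refine ⟨by omega, fun i => ?_⟩
      obtain ⟨u, hu, hui⟩ := he2 i
      refine ⟨u, ?_, fun h => hu (h ▸ hve), hui⟩
      by_contra hus
      have : u ∈ e.erase v := by rw [heq]; simpa using hus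
      exact hu (mem_of_mem_erase this)
    obtain ⟨v0, hv0⟩ : S.Nonempty := card_pos.1 (by omega)
    exact five S (key v0 hv0).1 (fun v hv => (key v hv).2)
  · have hsub : (T0 : Set (Finset (Fin 11))) ⊆
        {T : Finset (Fin 11) | T.card = 8 ∧ ∀ e ⊆ T, e.card = 7 → e ∈ E0} := by
      intro T hT
      obtain ⟨h1, h2⟩ := mem_filter.1 (mem_coe.1 hT)
      refine ⟨(mem_powersetCard.1 h1).2, fun e he hc => ?_⟩
      refine mem_filter.2 ⟨mem_powersetCard.2 ⟨subset_univ _, hc⟩, fun i => ?_⟩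
      obtain ⟨v, hv, hvi⟩ := h2 i
      exact ⟨v, fun h => hv (he h), hvi⟩
    have h1 := Set.ncard_le_ncard hsub (Set.toFinite _)
    rw [Set.ncard_coe_finset, T0_card] at h1
    have h2 : (4 + 7 - 1).choose 8 = 45 := by decide
    unfold cliqueCount
    omega

end Pool.Agent.Results.MP_691546_co.Counterexample
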